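import Pool.Agent.TH140.MR.Final

/-!
# The maximal rank of complex tensors of all large formats

For `d ≥ 3` factors of dimensions `n i ≥ m ≥ 1` the maximal rank lies between the parameter count
`∏ n i / ∑ n i` and `(1 + (2 d + 3) 3 ^ (d + 2) / m ^ (1 / 3))` times it.
-/

set_option autoImplicit false

namespace Pool.Agent.Results.MP_098a67_ag.AllFormatsAsymptotic

open Pool.Agent.TH140.MR

theorem result (d : ℕ) (hd : 3 ≤ d) (n : Fin d → ℕ) (m : ℕ) (hm : 0 < m) (hn : ∀ i, m ≤ n i) :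
    (∏ i, (n i : ℝ)) / (∑ i, (n i : ℝ)) ≤ (maxRank ℂ n : ℝ) ∧
    (maxRank ℂ n : ℝ) ≤ (1 + (2 * d + 3) * 3 ^ (d + 2) / (m : ℝ) ^ ((1 : ℝ) / 3)) *
      ((∏ i, (n i : ℝ)) / ∑ i, (n i : ℝ)) :=
  ⟨maxRank_lower (by omega) ℂ n fun i => lt_of_lt_of_le hm (hn i), maxRank_upper ℂ hd n m hm hn⟩

end Pool.Agent.Results.MP_098a67_ag.AllFormatsAsymptotic
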